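import Pool.Agent.H97.FB.Defs2
import Pool.Agent.H4.AR.Def

/-!
# MP_821da1_nt, Families for every degree `n ≥ 3` (helper87): the cluster lemma, definitions

Complete proof: table `proofs`, id 353, sections 2-10.
`DiagG an θ`: to every conjugate of the anchor a set of at most `n` vectors of labels is attached.
`SpS A Z x s`: the coordinates `x_v`, `v ∈ s`, satisfy a relation of degree at most `A` with small
coefficients.
`mv x y κ = ∏ x_j^(a_j) y_j^(b_j)`, `κ_j = (a_j, b_j)`. `bx I A ν N`: `a_j ≤ N` for `j ∈ I`, `a_j < A` for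
`j ∉ I`, `b_j < ν`.
`Rep x y s Z z`: a small nonzero multiple of the integer `z` is a small combination of the values of
the monomials in `s`. `Ind x y s Z`: there is no small relation between these values.
`EqF θ c`: `c` is an equivariant family of algebraic integers, indexed by the vectors of labels.
`ThS θ`: `θ u` is the list of the different roots of a monic integer polynomial.
`fv E x y l = ∑ E κ x^(κ.1) y^(κ.2)`: value of a polynomial of degree at most `M` in both variables.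
`ak, u1, f1`: the coefficients, the series over `E`, the Taylor coefficients at `1/X0` of
`∑_(s ≤ J, j < Dn) A s j x0^(s mod e) x^s Z^j`.
-/

namespace Pool.Agent.H87.CL

open Finset Polynomial Pool.Agent.H72.ES Pool.Agent.H87.SA Pool.Agent.H87.SA2 Pool.Agent.H87.AX
  Pool.Agent.H8.AW Pool.Agent.H52.AC Pool.Agent.H97.NW Pool.Agent.H97.FB H4AR

/-- the vectors of labels attached to the conjugates of the anchor -/
structure DiagG {Dn Dl κ e M : ℕ} {X0 R : ℝ} (an : AnchX Dn Dl κ e M X0 R) {g n : ℕ}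
    (θ : Fin g → Fin n → ℂ) where
  cardI : Fintype.card an.I ≤ Dn
  Rt : an.I → Finset (Fin g → Fin n)
  card : ∀ i, (Rt i).card ≤ n
  diag : ∀ l : Fin n, (fun _ => l) ∈ Rt an.i0
  gal : ∀ σ : AA →+* ℂ, ∃ π1 : an.I → an.I,
    (∀ (i : an.I) (k : ℕ) (a : AA),
      (a : ℂ) = (((1 / X0 : ℝ)) : ℂ) ^ k * PowerSeries.coeff k (an.zs i) →
      σ a = (((1 / X0 : ℝ)) : ℂ) ^ k * PowerSeries.coeff k (an.zs (π1 i))) ∧
    ∀ (i : an.I) (l l' : Fin g → Fin n), l ∈ Rt i → (∀ u, Cj σ (θ u (l u)) (θ u (l' u))) →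
      l' ∈ Rt (π1 i)

/-- the vector of the roots with the labels `l` -/
def vv {g n : ℕ} (θ : Fin g → Fin n → ℂ) (l : Fin g → Fin n) (u : Fin g) : ℂ := θ u (l u)

/-- every `θ u` is the list of the different roots of a monic polynomial -/
def ThS {g n : ℕ} (θ : Fin g → Fin n → ℂ) : Prop := ∀ u, ∃ p : ℤ[X], p.Monic ∧ Rts p (θ u)

/-- the coordinates in `s` satisfy a relation of small degree and small height -/
def SpS {g : ℕ} (A : ℕ) (Z : ℝ) (x : Fin g → ℤ) (s : Finset (Fin g)) : Prop :=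
  ∃ p : MvPolynomial (Fin g) ℤ, p ≠ 0 ∧ p.vars ⊆ s ∧ (∀ v, p.degreeOf v ≤ A) ∧ l1 p ≤ Z ∧
    MvPolynomial.eval x p = 0

/-- the coordinates outside `I` are algebraic over the coordinates in `I`, with small data -/
def AlgI {g : ℕ} (A : ℕ) (Z : ℝ) (x : Fin g → ℤ) (I : Finset (Fin g)) : Prop :=
  ∀ j ∉ I, ∃ (D : ℕ) (p : ℕ → MvPolynomial (Fin g) ℤ), 1 ≤ D ∧ D ≤ A ∧
    (∀ k, (p k).vars ⊆ I ∧ (∀ v, (p k).degreeOf v ≤ A) ∧ l1 (p k) ≤ Z) ∧
    MvPolynomial.eval x (p D) ≠ 0 ∧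
    ∑ k ∈ range (D + 1), MvPolynomial.eval x (p k) * x j ^ k = 0

/-- the value of a monomial -/
def mv {g : ℕ} (x y : Fin g → ℤ) (κ : Fin g → ℕ × ℕ) : ℤ := ∏ j, x j ^ (κ j).1 * y j ^ (κ j).2

/-- the box of exponents -/
def bx {g : ℕ} (I : Finset (Fin g)) (A ν N : ℕ) : Finset (Fin g → ℕ × ℕ) :=
  Fintype.piFinset fun j => range (if j ∈ I then N + 1 else A) ×ˢ range ν

/-- a small multiple of `z` is a small combination of the values of the monomials in `s` -/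
def Rep {g : ℕ} (x y : Fin g → ℤ) (s : Finset (Fin g → ℕ × ℕ)) (Z : ℝ) (z : ℤ) : Prop :=
  ∃ (D : ℤ) (c : (Fin g → ℕ × ℕ) → ℤ), D ≠ 0 ∧ |(D : ℝ)| ≤ Z ∧ (∀ κ, |(c κ : ℝ)| ≤ Z) ∧
    D * z = ∑ κ ∈ s, c κ * mv x y κ

/-- there is no small relation between the values of the monomials in `s` -/
def Ind {g : ℕ} (x y : Fin g → ℤ) (s : Finset (Fin g → ℕ × ℕ)) (Z : ℝ) : Prop :=
  ∀ c : (Fin g → ℕ × ℕ) → ℤ, (∀ κ ∈ s, |(c κ : ℝ)| ≤ Z) → ∑ κ ∈ s, c κ * mv x y κ = 0 →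
    ∀ κ ∈ s, c κ = 0

/-- equivariant families of algebraic integers -/
structure EqF {g n : ℕ} (θ : Fin g → Fin n → ℂ) (c : (Fin g → Fin n) → ℂ) : Prop where
  int : ∀ l, IsIntegral ℤ (c l)
  eqv : ∀ (σ : AA →+* ℂ) (l l' : Fin g → Fin n), (∀ u, Cj σ (θ u (l u)) (θ u (l' u))) →
    Cj σ (c l) (c l')

/-- the value of a polynomial with coefficients `E`, of degree at most `M` in both variables -/
noncomputable def fv (M : ℕ) (E : ℕ × ℕ → ℂ) (x y : ℤ) : ℂ :=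
  ∑ κ ∈ range (M + 1) ×ˢ range (M + 1), E κ * ((x : ℂ) ^ κ.1 * (y : ℂ) ^ κ.2)

/-- the coefficient of `x^k`, for the conjugate `i` of the anchor -/
noncomputable def ak {Dn Dl κ e M : ℕ} {X0 R : ℝ} (an : AnchX Dn Dl κ e M X0 R) (J : ℕ)
    (A : ℕ → ℕ → ℤ) (k : ℕ) (i : an.I) : ℂ :=
  ∑ s ∈ range (J + 1), ∑ j ∈ range Dn, zcR (X0 : ℂ) e (an.zs i) k s j * (A s j : ℂ)

/-- the series over `E` -/
noncomputable def u1 {Dn Dl κ e M : ℕ} {X0 R : ℝ} (an : AnchX Dn Dl κ e M X0 R) (J : ℕ)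
    (A : ℕ → ℕ → ℤ) : PowerSeries an.E :=
  usR an.x0 e J Dn A an.Z

/-- the Taylor coefficients at `1/X0` -/
noncomputable def f1 {Dn Dl κ e M : ℕ} {X0 R : ℝ} (an : AnchX Dn Dl κ e M X0 R) (J : ℕ)
    (A : ℕ → ℕ → ℤ) (l : ℕ) : ℝ :=
  PowerSeries.coeff l (tay (1 / X0) ((u1 an J A).map an.ψ))

end Pool.Agent.H87.CL
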